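import Mathlib
import Pool.Agent.H316R3.LT.As

/-!
# Level sets of Brownian motion minus a continuous function

For every continuous `f : [0,1] → ℝ` the level sets of `B - f` have Hausdorff dimension at least
`1/2` for all heights in a nonempty random open set, and `B - f` spends almost all its time in the
maximal such open set.
-/

namespace Pool.Agent.Results.MP_088492_pr.LevelSetsBrownian

open MeasureTheory ProbabilityTheory Set Filter Topology H316.LT
open scoped NNReal ENNReal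

/-- `(B - f)⁻¹(y) = {t ∈ [0,1] : B(t) - f(t) = y}`, on the outcome `ω`. -/
def levelSet {Ω : Type*} (B : ℝ≥0 → Ω → ℝ) (f : ℝ → ℝ) (ω : Ω) (y : ℝ) : Set ℝ :=
  {t : ℝ | t ∈ Icc (0:ℝ) 1 ∧ B t.toNNReal ω - f t = y}

/-- `(B - f)⁻¹(U) = {t ∈ [0,1] : B(t) - f(t) ∈ U}`, on the outcome `ω`. -/
def preimageSet {Ω : Type*} (B : ℝ≥0 → Ω → ℝ) (f : ℝ → ℝ) (ω : Ω) (U : Set ℝ) : Set ℝ :=
  {t : ℝ | t ∈ Icc (0:ℝ) 1 ∧ B t.toNNReal ω - f t ∈ U}

/-- The union of all open sets `V` such that `dim_H (B - f)⁻¹(y) ≥ 1/2` for all `y ∈ V`. -/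
def maximalOpen {Ω : Type*} (B : ℝ≥0 → Ω → ℝ) (f : ℝ → ℝ) (ω : Ω) : Set ℝ :=
  ⋃₀ {V : Set ℝ | IsOpen V ∧ ∀ y ∈ V, (1 / 2 : ℝ≥0∞) ≤ dimH (levelSet B f ω y)}

theorem good_version {Ω : Type*} [MeasurableSpace Ω] {P : Measure Ω} {B : ℝ≥0 → Ω → ℝ}
    (hB : IsBrownianReal B P) : ∃ B' : ℝ≥0 → Ω → ℝ, GoodBM B' P ∧
      ∀ᵐ ω ∂P, ∀ t, B' t ω = B t ω := by
  classical
  set M : ℕ → Ω → ℝ := fun n => (hB.aemeasurable (TopologicalSpace.denseSeq ℝ≥0 n)).mk with hM
  have h1 : ∀ᵐ ω ∂P, Continuous (fun t => B t ω) ∧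
      ∀ n, B (TopologicalSpace.denseSeq ℝ≥0 n) ω = M n ω := by
    have h2 : ∀ᵐ ω ∂P, ∀ n, B (TopologicalSpace.denseSeq ℝ≥0 n) ω = M n ω :=
      ae_all_iff.2 fun n => (hB.aemeasurable (TopologicalSpace.denseSeq ℝ≥0 n)).ae_eq_mk
    filter_upwards [hB.cont, h2] with ω h3 h4 using ⟨h3, h4⟩
  set bad : Set Ω := {ω | ¬ (Continuous (fun t => B t ω) ∧
      ∀ n, B (TopologicalSpace.denseSeq ℝ≥0 n) ω = M n ω)} with hbad
  have hbad0 : P bad = 0 := h1
  set G : Set Ω := (toMeasurable P bad)ᶜ with hG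
  have hGm : MeasurableSet G := (measurableSet_toMeasurable P bad).compl
  have hGae : ∀ᵐ ω ∂P, ω ∈ G := by
    rw [ae_iff]
    have : {ω | ω ∉ G} = toMeasurable P bad := by
      ext ω; simp [hG]
    rw [this, measure_toMeasurable, hbad0]
  have hGgood : ∀ ω ∈ G, Continuous (fun t => B t ω) ∧
      ∀ n, B (TopologicalSpace.denseSeq ℝ≥0 n) ω = M n ω := by
    intro ω hω
    by_contra h
    exact hω (subset_toMeasurable P bad h)
  have hcont : ∀ ω, Continuous (fun t => G.indicator (B t) ω) := by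
    intro ω
    by_cases hω : ω ∈ G
    · have : (fun t => G.indicator (B t) ω) = fun t => B t ω := by
        funext t; exact indicator_of_mem hω _
      rw [this]; exact (hGgood ω hω).1
    · have : (fun t => G.indicator (B t) ω) = fun t => 0 := by
        funext t; exact indicator_of_notMem hω _
      rw [this]; exact continuous_const
  refine ⟨fun t => G.indicator (B t), ⟨?_, ?_, hcont⟩, ?_⟩
  · refine hB.toIsPreBrownianReal.congr fun t => ?_
    filter_upwards [hGae] with ω hω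
    rw [indicator_of_mem hω]
  · intro t
    obtain ⟨u, hu1, hu2⟩ := mem_closure_iff_seq_limit.1
      ((TopologicalSpace.denseRange_denseSeq ℝ≥0) t)
    choose n hn using hu1
    have hmn : ∀ k, Measurable (fun ω => G.indicator (B (u k)) ω) := by
      intro k
      have : (fun ω => G.indicator (B (u k)) ω) = G.indicator (M (n k)) := by
        funext ω
        by_cases hω : ω ∈ G
        · rw [indicator_of_mem hω, indicator_of_mem hω, ← (hGgood ω hω).2, hn]
        · rw [indicator_of_notMem hω, indicator_of_notMem hω]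
      rw [this]
      exact ((hB.aemeasurable _).measurable_mk).indicator hGm
    refine measurable_of_tendsto_metrizable hmn ?_
    rw [tendsto_pi_nhds]
    intro ω
    exact ((hcont ω).tendsto t).comp hu2
  · filter_upwards [hGae] with ω hω t
    rw [indicator_of_mem hω]

/-- **Main theorem.**  Let `B` be a standard Brownian motion (on any probability space) and let
`f` be continuous on `[0,1]`.  There is a random open set `U` (open for every outcome, and
`{K ⊆ U}` is an event for every compact `K`) such that almost surely: `U` is nonempty,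
`dim_H (B - f)⁻¹(y) ≥ 1/2` for every `y ∈ U` (this is Q1), `λ((B - f)⁻¹(U)) = 1`, and
`λ((B - f)⁻¹(V)) = 1` for the maximal open set `V` with the property in Q1 (this is Q2). -/
theorem result {Ω : Type*} [MeasurableSpace Ω] (P : Measure Ω) (B : ℝ≥0 → Ω → ℝ)
    (hB : IsBrownianReal B P) (f : ℝ → ℝ) (hf : ContinuousOn f (Icc (0:ℝ) 1)) :
    ∃ U : Ω → Set ℝ, (∀ ω, IsOpen (U ω)) ∧
      (∀ K : Set ℝ, IsCompact K → MeasurableSet {ω | K ⊆ U ω}) ∧
      ∀ᵐ ω ∂P, (U ω).Nonempty ∧ (∀ y ∈ U ω, (1 / 2 : ℝ≥0∞) ≤ dimH (levelSet B f ω y)) ∧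
        volume (preimageSet B f ω (U ω)) = 1 ∧
        volume (preimageSet B f ω (maximalOpen B f ω)) = 1 := by
  classical
  obtain ⟨B', hB', hBB⟩ := good_version hB
  have hP := hB'.prob
  -- continuous extension of `f`
  set g : ℝ → ℝ := IccExtend (zero_le_one' ℝ) (fun t : Icc (0:ℝ) 1 => f t) with hg
  have hgc : Continuous g := by
    apply Continuous.Icc_extend'
    exact continuousOn_iff_continuous_domRestrict.1 hf
  have hgf : ∀ t ∈ Icc (0:ℝ) 1, g t = f t := by
    intro t ht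
    rw [hg, IccExtend_of_mem _ _ ht]
  set X : Ω → ℝ → ℝ := fun ω r => B' r.toNNReal ω - g r with hX
  have hXc : ∀ ω, Continuous (X ω) := by
    intro ω
    have := hB'.cont ω
    simp only [hX]
    fun_prop
  have hα : ∀ i : ℕ, (0:ℝ) < 1 / 2 - 1 / ((i : ℝ) + 3) := by
    intro i
    have h3 : (3:ℝ) ≤ (i : ℝ) + 3 := by have : (0:ℝ) ≤ i := Nat.cast_nonneg i; linarith
    have := one_div_le_one_div_of_le (by norm_num : (0:ℝ) < 3) h3
    linarith
  have hyp : ∀ᵐ ω ∂P, ∀ i : ℕ, ∃ C : ℝ, 0 < C ∧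
      Hyp (X ω) (1 / 2 - 1 / ((i : ℝ) + 3)) C := ae_all_iff.2 fun i => hyp_as hB' hgc i
  set bad : Set Ω := {ω | ¬ ∀ i : ℕ, ∃ C : ℝ, 0 < C ∧
      Hyp (X ω) (1 / 2 - 1 / ((i : ℝ) + 3)) C} with hbad
  have hbad0 : P bad = 0 := hyp
  set G : Set Ω := (toMeasurable P bad)ᶜ with hG
  have hGm : MeasurableSet G := (measurableSet_toMeasurable P bad).compl
  have hGae : ∀ᵐ ω ∂P, ω ∈ G := by
    rw [ae_iff]
    have : {ω | ω ∉ G} = toMeasurable P bad := by
      ext ω; simp [hG]
    rw [this, measure_toMeasurable, hbad0]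
  have hGgood : ∀ ω ∈ G, ∀ i : ℕ, ∃ C : ℝ, 0 < C ∧
      Hyp (X ω) (1 / 2 - 1 / ((i : ℝ) + 3)) C := by
    intro ω hω
    by_contra h
    exact hω (subset_toMeasurable P bad h)
  set Λ : ℕ → ℝ → Ω → ℝ := fun m y =>
    G.indicator (fun ω => lam (X ω) 0 1 m ⌊(2:ℝ) ^ m * y⌋) with hΛ
  have hΛm : ∀ m y, Measurable (Λ m y) := fun m y => (lam_meas hB' hgc _ _ _ _).indicator hGm
  have hlim : ∀ ω y, ∃ L : ℝ, Tendsto (fun m => Λ m y ω) atTop (𝓝 L) := by
    intro ω y
    by_cases hω : ω ∈ G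
    · obtain ⟨C, hC, H⟩ := hGgood ω hω 0
      obtain ⟨L, hL, -⟩ := lam_lim (hXc ω).measurable (hα 0) hC H y
      refine ⟨L, ?_⟩
      have : (fun m => Λ m y ω) = fun m => lam (X ω) 0 1 m ⌊(2:ℝ) ^ m * y⌋ := by
        funext m; exact indicator_of_mem hω _
      rw [this]; exact hL
    · refine ⟨0, ?_⟩
      have : (fun m => Λ m y ω) = fun m => 0 := by
        funext m; exact indicator_of_notMem hω _
      rw [this]; exact tendsto_const_nhds
  choose L hL using hlim
  have hLm : ∀ y, Measurable (fun ω => L ω y) := by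
    intro y
    refine measurable_of_tendsto_metrizable (fun m => hΛm m y) ?_
    rw [tendsto_pi_nhds]
    intro ω
    exact hL ω y
  have hLG : ∀ ω ∈ G, ∀ y, Tendsto (fun m => lam (X ω) 0 1 m ⌊(2:ℝ) ^ m * y⌋) atTop
      (𝓝 (L ω y)) := by
    intro ω hω y
    have : (fun m => Λ m y ω) = fun m => lam (X ω) 0 1 m ⌊(2:ℝ) ^ m * y⌋ := by
      funext m; exact indicator_of_mem hω _
    rw [← this]; exact hL ω y
  have hLc : ∀ ω, Continuous (L ω) := by
    intro ω
    by_cases hω : ω ∈ G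
    · obtain ⟨C, hC, H⟩ := hGgood ω hω 0
      exact cont_lim (hXc ω).measurable (hα 0) hC H (hLG ω hω)
    · have : L ω = fun _ => 0 := by
        funext y
        have h1 : (fun m => Λ m y ω) = fun m => 0 := by
          funext m; exact indicator_of_notMem hω _
        have h2 := hL ω y
        rw [h1] at h2
        exact tendsto_nhds_unique h2 tendsto_const_nhds
      rw [this]; exact continuous_const
  set U : Ω → Set ℝ := fun ω => {y | 0 < L ω y} with hU
  have hUo : ∀ ω, IsOpen (U ω) := fun ω => isOpen_lt continuous_const (hLc ω)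
  have hUm : ∀ K : Set ℝ, IsCompact K → MeasurableSet {ω | K ⊆ U ω} := by
    intro K hK
    rcases K.eq_empty_or_nonempty with rfl | hne
    · simp
    have : Nonempty K := hne.to_subtype
    set u := TopologicalSpace.denseSeq K with hu
    have hud : DenseRange u := TopologicalSpace.denseRange_denseSeq K
    have e : {ω | K ⊆ U ω} = ⋃ n : ℕ, ⋂ k : ℕ, {ω | 1 / ((n : ℝ) + 1) ≤ L ω (u k)} := by
      ext ω
      simp only [mem_ofPred_eq, mem_iUnion, mem_iInter]
      constructor
      · intro h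
        obtain ⟨y0, hy0, hmin⟩ := hK.exists_isMinOn hne (hLc ω).continuousOn
        have hpos : 0 < L ω y0 := h hy0
        obtain ⟨n, hn⟩ := exists_nat_one_div_lt hpos
        exact ⟨n, fun k => hn.le.trans (hmin (u k).2)⟩
      · rintro ⟨n, hn⟩ y hy
        have h1 : ∀ z : K, 1 / ((n : ℝ) + 1) ≤ L ω z := by
          intro z
          have hcl : IsClosed {z : K | 1 / ((n : ℝ) + 1) ≤ L ω z} :=
            isClosed_le continuous_const ((hLc ω).comp continuous_subtype_val)
          have := hud.induction_on (p := fun z : K => 1 / ((n : ℝ) + 1) ≤ L ω z) z hcl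
            (fun k => hn k)
          exact this
        have h2 := h1 ⟨y, hy⟩
        have h3 : (0:ℝ) < 1 / ((n : ℝ) + 1) := by positivity
        exact lt_of_lt_of_le h3 h2
    rw [e]
    exact MeasurableSet.iUnion fun n => MeasurableSet.iInter fun k =>
      measurableSet_le measurable_const (hLm _)
  have hmain : ∀ᵐ ω ∂P, (U ω).Nonempty ∧
      (∀ y ∈ U ω, (1 / 2 : ℝ≥0∞) ≤ dimH (levelSet B f ω y)) ∧
        volume (preimageSet B f ω (U ω)) = 1 := by
    filter_upwards [hGae, hBB] with ω hω hbb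
    have hXB : ∀ t ∈ Icc (0:ℝ) 1, X ω t = B t.toNNReal ω - f t := by
      intro t ht
      simp only [hX]
      rw [hbb, hgf t ht]
    have hfull : volume (preimageSet B f ω (U ω)) = 1 := by
      obtain ⟨C, hC, H⟩ := hGgood ω hω 0
      have h1 := full_time (hXc ω) (hα 0) hC H (hLG ω hω)
      have h2 : Icc (0:ℝ) 1 ⊆ preimageSet B f ω (U ω) ∪
          {r : ℝ | r ∈ Icc (0:ℝ) 1 ∧ L ω (X ω r) ≤ 0} := by
        intro t ht
        by_cases h3 : L ω (X ω t) ≤ 0
        · right; exact ⟨ht, h3⟩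
        · left
          push Not at h3
          refine ⟨ht, ?_⟩
          rw [← hXB t ht]; exact h3
      apply le_antisymm
      · calc volume (preimageSet B f ω (U ω)) ≤ volume (Icc (0:ℝ) 1) :=
              measure_mono fun t ht => ht.1
          _ = 1 := by simp
      · calc (1 : ℝ≥0∞) = volume (Icc (0:ℝ) 1) := by simp
          _ ≤ _ := measure_mono h2
          _ ≤ volume (preimageSet B f ω (U ω)) +
              volume {r : ℝ | r ∈ Icc (0:ℝ) 1 ∧ L ω (X ω r) ≤ 0} := measure_union_le _ _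
          _ = _ := by rw [h1, add_zero]
    refine ⟨?_, ?_, hfull⟩
    · by_contra hne
      rw [not_nonempty_iff_eq_empty] at hne
      rw [hne] at hfull
      simp [preimageSet] at hfull
    · intro y hy
      have hls : levelSet B f ω y = {r : ℝ | r ∈ Icc (0:ℝ) 1 ∧ X ω r = y} := by
        ext t
        simp only [levelSet, mem_ofPred_eq]
        constructor
        · rintro ⟨ht, h⟩; exact ⟨ht, by rw [hXB t ht]; exact h⟩
        · rintro ⟨ht, h⟩; exact ⟨ht, by rw [← hXB t ht]; exact h⟩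
      rw [hls]
      have h1 : ∀ i : ℕ, ENNReal.ofReal (1 / 2 - 1 / ((i : ℝ) + 3)) ≤
          dimH {r : ℝ | r ∈ Icc (0:ℝ) 1 ∧ X ω r = y} := by
        intro i
        obtain ⟨C, hC, H⟩ := hGgood ω hω i
        exact dim_bound (hXc ω) (hα i) hC H hy (hLG ω hω y)
      have h2 : Tendsto (fun i : ℕ => ENNReal.ofReal (1 / 2 - 1 / ((i : ℝ) + 3))) atTop
          (𝓝 (ENNReal.ofReal (1 / 2 - 0))) := by
        apply (ENNReal.continuous_ofReal.tendsto _).comp
        apply Tendsto.const_sub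
        have h3 : Tendsto (fun i : ℕ => (i : ℝ) + 3) atTop atTop :=
          tendsto_atTop_add_const_right _ _ tendsto_natCast_atTop_atTop
        exact h3.inv_tendsto_atTop.congr fun i => by simp [one_div]
      have h4 := le_of_tendsto' h2 h1
      have h5 : ENNReal.ofReal (1 / 2 - 0) = 1 / 2 := by
        rw [sub_zero, ENNReal.ofReal_div_of_pos (by norm_num)]; norm_num
      rwa [h5] at h4
  refine ⟨U, hUo, hUm, ?_⟩
  filter_upwards [hmain] with ω hω
  have hsub : U ω ⊆ maximalOpen B f ω := subset_sUnion_of_mem ⟨hUo ω, hω.2.1⟩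
  refine ⟨hω.1, hω.2.1, hω.2.2, ?_⟩
  apply le_antisymm
  · calc volume (preimageSet B f ω (maximalOpen B f ω)) ≤ volume (Icc (0:ℝ) 1) :=
          measure_mono fun t ht => ht.1
      _ = 1 := by simp
  · rw [← hω.2.2]
    exact measure_mono fun t ht => ⟨ht.1, hsub ht.2⟩

end Pool.Agent.Results.MP_088492_pr.LevelSetsBrownian
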